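import Pool.Agent.Helper56.RC.StF

/-! Module TWB (bound of the window part) of helper56's project RC, track A. -/

open MeasureTheory Set Filter Metric

namespace Pool.Agent.Helper32.RC

open Helper49.LT Helper49.RC Helper87.RC Helper44.RC Helper56.RC

theorem zex (p c : ℂ) : ∃ (z : ℂ) (a : ℝ), ‖z‖ = 1 ∧ |a| ≤ ‖p‖ ∧ ‖c‖ * a = (p * c).re ∧
    (c * z).im = -‖c‖ ∧ ((starRingEnd ℂ) p * z).im = -a := by
  by_cases hc : c = 0
  · subst hc
    by_cases hp : p = 0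
    · subst hp
      exact ⟨1, 0, by simp, by simp, by simp, by simp, by simp⟩
    · have hp' : ‖p‖ ≠ 0 := norm_ne_zero_iff.mpr hp
      refine ⟨p / ‖p‖, 0, ?_, by simp, by simp, by simp, ?_⟩
      · rw [norm_div]; simp [hp']
      · rw [mul_div_assoc', mul_comm, Complex.mul_conj, Complex.normSq_eq_norm_sq, ← Complex.ofReal_div,
          Complex.ofReal_im, neg_zero]
  · have hc' : ‖c‖ ≠ 0 := norm_ne_zero_iff.mpr hc
    have hc2 : 0 < ‖c‖ := norm_pos_iff.mpr hc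
    refine ⟨-Complex.I * (starRingEnd ℂ) c / ‖c‖, (p * c).re / ‖c‖, ?_, ?_, ?_, ?_, ?_⟩
    · rw [norm_div, norm_mul]; simp [hc']
    · rw [abs_div, abs_of_pos hc2, div_le_iff₀ hc2, ← norm_mul]
      exact Complex.abs_re_le_norm _
    · field_simp
    · have : c * (-Complex.I * (starRingEnd ℂ) c / ‖c‖) = ((-‖c‖ : ℝ) : ℂ) * Complex.I := by
        have h : c * (starRingEnd ℂ) c = ((‖c‖ * ‖c‖ : ℝ) : ℂ) := by
          rw [Complex.mul_conj, Complex.normSq_eq_norm_sq, sq]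
        have h2 : (‖c‖ : ℂ) ≠ 0 := by exact_mod_cast hc'
        rw [mul_div_assoc', div_eq_iff h2]
        calc c * (-Complex.I * (starRingEnd ℂ) c) = -(c * (starRingEnd ℂ) c) * Complex.I := by ring
          _ = _ := by rw [h]; push_cast; ring
      rw [this]; simp
    · have h2 : (‖c‖ : ℂ) ≠ 0 := by exact_mod_cast hc'
      have : (starRingEnd ℂ) p * (-Complex.I * (starRingEnd ℂ) c / ‖c‖)
          = ((‖c‖⁻¹ : ℝ) : ℂ) * (-Complex.I * (starRingEnd ℂ) (p * c)) := by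
        rw [map_mul, Complex.ofReal_inv]; field_simp
      rw [this, Complex.im_ofReal_mul]
      simp only [Complex.mul_im, Complex.neg_re, Complex.neg_im, Complex.I_re, Complex.I_im,
        Complex.conj_re, Complex.conj_im]
      field_simp
      ring

/-- one series of the window part -/
theorem ser (s : ℤ) (t a c B V : ℤ → ℝ) (E : ℝ)
    (hB : Summable fun j => B j ^ 2) (hV : Summable fun j => V j ^ 2)
    (ha0 : ∀ j, 0 ≤ a j) (ha : ∀ j, a j ≤ 5) (hc : ∀ j, 1 / 4 ≤ c j ∧ c j ≤ 8)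
    (ht : ∀ j, |t j| ≤ a j * (B j * V (j + s)) + if j = 0 then E else 0) :
    (Summable fun j => c j * a j * B j ^ 2) ∧
    (Summable fun i => a (i - s) / (4 * c (i - s)) * V i ^ 2) ∧
    -E - (∑' j, c j * a j * B j ^ 2) - (∑' i, a (i - s) / (4 * c (i - s)) * V i ^ 2) ≤ ∑' j, t j := by
  have hVs : Summable fun j => V (j + s) ^ 2 := (Equiv.addRight s).summable_iff.mpr hV
  have hcp : ∀ j, 0 < c j := fun j => by linarith [(hc j).1]
  have h1 : Summable fun j => c j * a j * B j ^ 2 := by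
    refine Summable.of_nonneg_of_le (fun j => ?_) (fun j => ?_) (hB.mul_left 40)
    · exact mul_nonneg (mul_nonneg (hcp j).le (ha0 j)) (sq_nonneg _)
    · refine mul_le_mul_of_nonneg_right ?_ (sq_nonneg _)
      nlinarith [hc j, ha j, ha0 j, hcp j]
  have hq : ∀ j, 0 ≤ a j / (4 * c j) ∧ a j / (4 * c j) ≤ 5 := fun j => by
    have := hcp j
    refine ⟨div_nonneg (ha0 j) (by linarith), ?_⟩
    rw [div_le_iff₀ (by linarith)]
    nlinarith [hc j, ha j]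
  have h2 : Summable fun i => a (i - s) / (4 * c (i - s)) * V i ^ 2 := by
    refine Summable.of_nonneg_of_le (fun j => ?_) (fun j => ?_) (hV.mul_left 5)
    · exact mul_nonneg (hq _).1 (sq_nonneg _)
    · exact mul_le_mul_of_nonneg_right (hq _).2 (sq_nonneg _)
  have h3 : Summable fun j => a j / (4 * c j) * V (j + s) ^ 2 := by
    refine Summable.of_nonneg_of_le (fun j => ?_) (fun j => ?_) (hVs.mul_left 5)
    · exact mul_nonneg (hq _).1 (sq_nonneg _)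
    · exact mul_le_mul_of_nonneg_right (hq _).2 (sq_nonneg _)
  have he : HasSum (fun j : ℤ => if j = 0 then E else 0) E := hasSum_ite_eq 0 E
  have hyoung : ∀ j, a j * (B j * V (j + s)) ≤ c j * a j * B j ^ 2 + a j / (4 * c j) * V (j + s) ^ 2 := by
    intro j
    have h4 : c j * a j * B j ^ 2 + a j / (4 * c j) * V (j + s) ^ 2 - a j * (B j * V (j + s))
        = a j / (4 * c j) * (2 * c j * B j - V (j + s)) ^ 2 := by
      have := (hcp j).ne'
      field_simp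
      ring
    have h5 : 0 ≤ a j / (4 * c j) * (2 * c j * B j - V (j + s)) ^ 2 :=
      mul_nonneg (hq j).1 (sq_nonneg _)
    linarith
  have ht2 : ∀ j, |t j| ≤ c j * a j * B j ^ 2 + a j / (4 * c j) * V (j + s) ^ 2
      + if j = 0 then E else 0 := fun j => by linarith [ht j, hyoung j]
  have hts : Summable t := by
    refine Summable.of_norm_bounded ((h1.add h3).add he.summable) (fun j => ?_)
    rw [Real.norm_eq_abs]
    exact ht2 j
  refine ⟨h1, h2, ?_⟩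
  have h6 : (∑' i, a (i - s) / (4 * c (i - s)) * V i ^ 2) = ∑' j, a j / (4 * c j) * V (j + s) ^ 2 := by
    rw [← (Equiv.addRight s).tsum_eq (fun i => a (i - s) / (4 * c (i - s)) * V i ^ 2)]
    simp
  rw [h6]
  have h7 : 0 ≤ ∑' j, (t j + (c j * a j * B j ^ 2 + a j / (4 * c j) * V (j + s) ^ 2
      + if j = 0 then E else 0)) := by
    refine tsum_nonneg (fun j => ?_)
    have := abs_le.mp (ht2 j)
    linarith [this.1]
  rw [hts.tsum_add ((h1.add h3).add he.summable), (h1.add h3).tsum_add he.summable,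
    h1.tsum_add h3, he.tsum_eq] at h7
  linarith

theorem RR_le (ρ : ℝ) (j : ℤ) : |RR ρ j| ≤ 4 := by
  unfold RR
  by_cases hj : j = 0
  · subst hj; simp
  · have h1 : (1 : ℝ) ≤ |(j : ℝ)| := by
      have : (1 : ℤ) ≤ |j| := Int.one_le_abs hj
      exact_mod_cast this
    rw [abs_mul, abs_div]
    have h2 : |Real.sin (j * ρ / 2)| ≤ 1 := Real.abs_sin_le_one _
    have h3 : |(4 : ℝ)| / |(j : ℝ)| ≤ 4 := by
      rw [div_le_iff₀ (by linarith)]
      have : |(4 : ℝ)| = 4 := by norm_num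
      rw [this]; nlinarith
    calc |(4 : ℝ)| / |(j : ℝ)| * |Real.sin (j * ρ / 2)| ≤ 4 * 1 := by
          refine mul_le_mul h3 h2 (abs_nonneg _) (by norm_num)
      _ = 4 := by norm_num

theorem KK_le (d ρ : ℝ) (j : ℤ) : |KK d ρ j| ≤ 4 := by
  unfold KK
  rw [abs_mul]
  calc _ ≤ 1 * 4 := mul_le_mul (Real.abs_cos_le_one _) (RR_le ρ j) (abs_nonneg _) (by norm_num)
    _ = 4 := by norm_num

theorem aK_nn (d ρ : ℝ) (n m : ℤ) : 0 ≤ aK d ρ n m := by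
  unfold aK
  split_ifs <;> positivity

theorem aK_le (d ρ : ℝ) (n m : ℤ) : aK d ρ n m ≤ 5 := by
  unfold aK
  have := KK_le d ρ (n + m)
  have := abs_nonneg (KK d ρ (n + m))
  split_ifs <;> nlinarith

theorem wt_b (θ : ℤ → ℝ) (hθ : ∀ m, 1 / 4 ≤ θ m ∧ θ m ≤ 8) (n m : ℤ) :
    1 / 4 ≤ wt θ n m ∧ wt θ n m ≤ 8 := by
  unfold wt
  split_ifs
  · norm_num
  · exact hθ m

theorem im1 (x y z : ℂ) (hz : ‖z‖ = 1) : |((starRingEnd ℂ) x * y * z).im| ≤ ‖x‖ * ‖y‖ := by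
  refine (Complex.abs_im_le_norm _).trans ?_
  rw [norm_mul, norm_mul, hz, RCLike.norm_conj, mul_one]

theorem im2 (x y z : ℂ) (hz : ‖z‖ = 1) : |(x * (starRingEnd ℂ) y * z).im| ≤ ‖x‖ * ‖y‖ := by
  refine (Complex.abs_im_le_norm _).trans ?_
  rw [norm_mul, norm_mul, hz, RCLike.norm_conj, mul_one]

theorem splitB (f : ℤ → ℝ) (hf : Summable f) :
    (Summable fun k : ℕ => f ((k : ℤ) + 1) + f (-((k : ℤ) + 1))) ∧
    ∑' j, f j = f 0 + ∑' k : ℕ, (f ((k : ℤ) + 1) + f (-((k : ℤ) + 1))) := by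
  have h1 : Summable fun k : ℕ => f ((k : ℤ) + 1) := by
    refine hf.comp_injective (i := fun k : ℕ => (k : ℤ) + 1) (fun x y hxy => ?_)
    simpa using hxy
  have h2 : Summable fun k : ℕ => f (-((k : ℤ) + 1)) := by
    refine hf.comp_injective (i := fun k : ℕ => -((k : ℤ) + 1)) (fun x y hxy => ?_)
    simpa using hxy
  refine ⟨h1.add h2, ?_⟩
  rw [tsum_of_add_one_of_neg_add_one h1 h2, h1.tsum_add h2]
  ring

theorem splitV (f : ℤ → ℝ) (hf : Summable f) :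
    (Summable fun k : ℕ => f ((k : ℤ) + 1) + f (-(k : ℤ))) ∧
    ∑' j, f j = ∑' k : ℕ, (f ((k : ℤ) + 1) + f (-(k : ℤ))) := by
  have h1 : Summable fun k : ℕ => f ((k : ℤ) + 1) := by
    refine hf.comp_injective (i := fun k : ℕ => (k : ℤ) + 1) (fun x y hxy => ?_)
    simpa using hxy
  have h2 : Summable fun k : ℕ => f (-(k : ℤ)) := by
    refine hf.comp_injective (i := fun k : ℕ => -(k : ℤ)) (fun x y hxy => ?_)
    simpa using hxy
  refine ⟨h1.add h2, ?_⟩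
  have e1 : ∑' j, f j = ∑' j : ℤ, f (-j) := ((Equiv.neg ℤ).tsum_eq f).symm
  have h1' : Summable fun k : ℕ => f (-(-((k : ℤ) + 1))) :=
    h1.congr (fun k => by rw [neg_neg])
  have e2 : ∑' j : ℤ, f (-j) = (∑' k : ℕ, f (-(k : ℤ))) + ∑' k : ℕ, f (-(-((k : ℤ) + 1))) :=
    tsum_of_nat_of_neg_add_one (f := fun j : ℤ => f (-j)) h2 h1'
  have e3 : (∑' k : ℕ, f (-(-((k : ℤ) + 1)))) = ∑' k : ℕ, f ((k : ℤ) + 1) :=
    tsum_congr (fun k => by rw [neg_neg])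
  rw [e1, e2, e3, h1.tsum_add h2, add_comm]

theorem sumB (f : ℤ → ℝ) (hf : Summable fun k : ℕ => f ((k : ℤ) + 1) + f (-((k : ℤ) + 1)))
    (h0 : ∀ j, 0 ≤ f j) : Summable f := by
  refine Summable.of_add_one_of_neg_add_one ?_ ?_
  · exact Summable.of_nonneg_of_le (fun k => h0 _) (fun k => by linarith [h0 (-((k : ℤ) + 1))]) hf
  · exact Summable.of_nonneg_of_le (fun k => h0 _) (fun k => by linarith [h0 ((k : ℤ) + 1)]) hf

theorem sumV (f : ℤ → ℝ) (hf : Summable fun k : ℕ => f ((k : ℤ) + 1) + f (-(k : ℤ)))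
    (h0 : ∀ j, 0 ≤ f j) : Summable f := by
  have h1 : Summable fun k : ℕ => f ((k : ℤ) + 1) :=
    Summable.of_nonneg_of_le (fun k => h0 _) (fun k => by linarith [h0 (-(k : ℤ))]) hf
  have h2 : Summable fun k : ℕ => f (-(k : ℤ)) :=
    Summable.of_nonneg_of_le (fun k => h0 _) (fun k => by linarith [h0 ((k : ℤ) + 1)]) hf
  have h1' : Summable fun k : ℕ => f (-(-((k : ℤ) + 1))) :=
    h1.congr (fun k => by rw [neg_neg])
  have h3 : Summable fun j : ℤ => f (-j) :=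
    Summable.of_nat_of_neg_add_one (f := fun j : ℤ => f (-j)) h2 h1'
  exact (Equiv.neg ℤ).summable_iff.mp h3

theorem aK3 (d ρ : ℝ) (n m : ℤ) (h1 : (m - n) ^ 2 = 9) (h2 : ¬ (n = 1 ∧ m = -2)) :
    aK d ρ n m = 19 / 20 * (11 / 10) * |KK d ρ (n + m)| := by
  unfold aK; rw [if_neg h2, if_pos h1]

theorem aK9 (d ρ : ℝ) (n m : ℤ) (h1 : (m - n) ^ 2 = 81) :
    aK d ρ n m = 19 / 20 * (1 / 10) * |KK d ρ (n + m)| := by
  unfold aK
  rw [if_neg, if_neg]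
  · rw [h1]; norm_num
  · rintro ⟨rfl, rfl⟩; norm_num at h1

theorem tb (κ K x B V a : ℝ) (hκ : 0 ≤ κ) (hx : |x| ≤ B * V) (ha : a = κ * |K|) :
    |κ * (K * x)| ≤ a * (B * V) := by
  rw [ha, abs_mul, abs_mul, abs_of_nonneg hκ, mul_assoc]
  exact mul_le_mul_of_nonneg_left (mul_le_mul_of_nonneg_left hx (abs_nonneg _)) hκ

theorem TW3 (β P : ℝ → ℂ) (d ρ : ℝ) (z : ℂ) : TW β P d ρ 3 z =
    Real.cos (2 * Real.pi / 3 + d) * (4 * Real.sin (ρ / 2)) * (cm P 1 * z).im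
    - Real.cos (4 * Real.pi / 3 + 5 * d) * (4 / 5 * Real.sin (5 * ρ / 2))
        * ((starRingEnd ℂ) (cp P 1) * z).im
    + ∑' j : ℤ, KK d ρ (2 * (2 * j + 1) - 3)
        * ((starRingEnd ℂ) (fc β (2 * j)) * fc P (2 * j - 3) * z).im
    - ∑' j : ℤ, KK d ρ (2 * (2 * j + 1) + 3)
        * (fc β (2 * j) * (starRingEnd ℂ) (fc P (2 * j + 3)) * z).im := by
  have h1 : cm P 1 = fc P (-3) := by unfold cm; norm_num
  have h2 : cp P 1 = fc P 3 := by unfold cp; norm_num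
  have h3 : Real.cos (Real.pi * (1 - ((3 : ℤ) : ℝ)) / 3 + (2 - ((3 : ℤ) : ℝ)) * d) * RR ρ (2 - 3)
      = Real.cos (2 * Real.pi / 3 + d) * (4 * Real.sin (ρ / 2)) := by
    have e1 : Real.pi * (1 - ((3 : ℤ) : ℝ)) / 3 + (2 - ((3 : ℤ) : ℝ)) * d = -(2 * Real.pi / 3 + d) := by
      push_cast; ring
    have e2 : RR ρ (2 - 3) = 4 * Real.sin (ρ / 2) := by
      unfold RR
      have e3 : (((2 - 3 : ℤ) : ℝ) * ρ / 2) = -(ρ / 2) := by push_cast; ring
      rw [e3, Real.sin_neg]; push_cast; ring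
    rw [e1, Real.cos_neg, e2]
  have h4 : Real.cos (Real.pi * (1 + ((3 : ℤ) : ℝ)) / 3 + (2 + ((3 : ℤ) : ℝ)) * d) * RR ρ (2 + 3)
      = Real.cos (4 * Real.pi / 3 + 5 * d) * (4 / 5 * Real.sin (5 * ρ / 2)) := by
    have e1 : Real.pi * (1 + ((3 : ℤ) : ℝ)) / 3 + (2 + ((3 : ℤ) : ℝ)) * d = 4 * Real.pi / 3 + 5 * d := by
      push_cast; ring
    have e2 : RR ρ (2 + 3) = 4 / 5 * Real.sin (5 * ρ / 2) := by
      unfold RR
      have e3 : (((2 + 3 : ℤ) : ℝ) * ρ / 2) = 5 * ρ / 2 := by push_cast; ring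
      rw [e3]; push_cast; ring
    rw [e1, e2]
  unfold TW
  rw [h3, h4, h1, h2]

theorem TW9 (β P : ℝ → ℂ) (d ρ : ℝ) (z : ℂ) : TW β P d ρ 9 z =
    Real.cos (8 * Real.pi / 3 + 7 * d) * (4 / 7 * Real.sin (7 * ρ / 2)) * (cm P 4 * z).im
    - Real.cos (10 * Real.pi / 3 + 11 * d) * (4 / 11 * Real.sin (11 * ρ / 2))
        * ((starRingEnd ℂ) (cp P 4) * z).im
    + ∑' j : ℤ, KK d ρ (2 * (2 * j + 1) - 9)
        * ((starRingEnd ℂ) (fc β (2 * j)) * fc P (2 * j - 9) * z).im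
    - ∑' j : ℤ, KK d ρ (2 * (2 * j + 1) + 9)
        * (fc β (2 * j) * (starRingEnd ℂ) (fc P (2 * j + 9)) * z).im := by
  have h1 : cm P 4 = fc P (-9) := by unfold cm; norm_num
  have h2 : cp P 4 = fc P 9 := by unfold cp; norm_num
  have h3 : Real.cos (Real.pi * (1 - ((9 : ℤ) : ℝ)) / 3 + (2 - ((9 : ℤ) : ℝ)) * d) * RR ρ (2 - 9)
      = Real.cos (8 * Real.pi / 3 + 7 * d) * (4 / 7 * Real.sin (7 * ρ / 2)) := by
    have e1 : Real.pi * (1 - ((9 : ℤ) : ℝ)) / 3 + (2 - ((9 : ℤ) : ℝ)) * d = -(8 * Real.pi / 3 + 7 * d) := by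
      push_cast; ring
    have e2 : RR ρ (2 - 9) = 4 / 7 * Real.sin (7 * ρ / 2) := by
      unfold RR
      have e3 : (((2 - 9 : ℤ) : ℝ) * ρ / 2) = -(7 * ρ / 2) := by push_cast; ring
      rw [e3, Real.sin_neg]; push_cast; ring
    rw [e1, Real.cos_neg, e2]
  have h4 : Real.cos (Real.pi * (1 + ((9 : ℤ) : ℝ)) / 3 + (2 + ((9 : ℤ) : ℝ)) * d) * RR ρ (2 + 9)
      = Real.cos (10 * Real.pi / 3 + 11 * d) * (4 / 11 * Real.sin (11 * ρ / 2)) := by
    have e1 : Real.pi * (1 + ((9 : ℤ) : ℝ)) / 3 + (2 + ((9 : ℤ) : ℝ)) * d = 10 * Real.pi / 3 + 11 * d := by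
      push_cast; ring
    have e2 : RR ρ (2 + 9) = 4 / 11 * Real.sin (11 * ρ / 2) := by
      unfold RR
      have e3 : (((2 + 9 : ℤ) : ℝ) * ρ / 2) = 11 * ρ / 2 := by push_cast; ring
      rw [e3]; push_cast; ring
    rw [e1, e2]
  unfold TW
  rw [h3, h4, h1, h2]

theorem hTWB (h : StPar) : StTwb := by
  intro β P hadm hβ d ρ θ hθ
  obtain ⟨hsB, -, hsP, -, -⟩ := h β P hadm hβ
  obtain ⟨z, a, hz, ha, hca, hcz, hpz⟩ := zex (cp P 1) (cm P 1)
  have hz3 : ‖z ^ 3‖ = 1 := by rw [norm_pow, hz, one_pow]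
  obtain ⟨B, hBdef⟩ : ∃ B : ℤ → ℝ, B = fun j => ‖fc β (2 * j)‖ := ⟨_, rfl⟩
  obtain ⟨V, hVdef⟩ : ∃ V : ℤ → ℝ, V = fun i => ‖fc P (2 * i - 1)‖ := ⟨_, rfl⟩
  have hB0 : B 0 = ‖fc β 0‖ := by rw [hBdef]; simp
  have hBx : ∀ j n : ℤ, 2 * j = n → B j = ‖fc β n‖ := fun j n e => by rw [← e, hBdef]
  have hVx : ∀ i n : ℤ, 2 * i - 1 = n → V i = ‖fc P n‖ := fun i n e => by rw [← e, hVdef]
  have hBu : ∀ k : ℕ, B ((k : ℤ) + 1) = ‖uu β k‖ := fun k => hBx _ _ (by ring)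
  have hBw : ∀ k : ℕ, B (-((k : ℤ) + 1)) = ‖ww β k‖ := fun k => hBx _ _ (by ring)
  have hVp : ∀ k : ℕ, V ((k : ℤ) + 1) = ‖cp P k‖ := fun k => hVx _ _ (by ring)
  have hVm : ∀ k : ℕ, V (-(k : ℤ)) = ‖cm P k‖ := fun k => hVx _ _ (by ring)
  have sB : Summable fun j => B j ^ 2 := by
    refine sumB _ (hsB.congr fun k => ?_) (fun j => sq_nonneg _)
    show _ = B ((k : ℤ) + 1) ^ 2 + B (-((k : ℤ) + 1)) ^ 2
    rw [hBu, hBw]
  have sV : Summable fun i => V i ^ 2 := by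
    refine sumV _ (hsP.congr fun k => ?_) (fun j => sq_nonneg _)
    show _ = V ((k : ℤ) + 1) ^ 2 + V (-(k : ℤ)) ^ 2
    rw [hVp, hVm]
  -- the four series
  have F1 := ser (-1) (fun j => 19 / 20 * (11 / 10) * (KK d ρ (2 * (2 * j + 1) - 3)
        * ((starRingEnd ℂ) (fc β (2 * j)) * fc P (2 * j - 3) * z).im))
      (fun j => aK d ρ (2 * j + 1) (2 * j + 1 - 3)) (fun j => wt θ (2 * j + 1) (2 * j + 1 - 3)) B V
      (K1 d ρ * ‖fc β 0‖ * ‖cm P 1‖) sB sV (fun j => aK_nn _ _ _ _) (fun j => aK_le _ _ _ _)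
      (fun j => wt_b θ hθ _ _) (fun j => by
        have hx : |((starRingEnd ℂ) (fc β (2 * j)) * fc P (2 * j - 3) * z).im| ≤ B j * V (j + -1) := by
          have := im1 (fc β (2 * j)) (fc P (2 * j - 3)) z hz
          rw [hVx (j + -1) (2 * j - 3) (by ring), hBx j _ rfl]; exact this
        by_cases hj : j = 0
        · subst hj
          have e1 : V (0 + -1) = ‖cm P 1‖ := by rw [← hVm 1]; norm_num
          have e2 : aK d ρ (2 * 0 + 1) (2 * 0 + 1 - 3) = 0 := by unfold aK; rw [if_pos]; norm_num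
          have e3 := tb (19 / 20 * (11 / 10)) (KK d ρ (2 * (2 * 0 + 1) - 3)) _ _ _ (K1 d ρ) (by norm_num)
            hx (by unfold K1; norm_num)
          rw [if_pos rfl, e2]
          rw [e1, hB0] at e3
          linarith
        · rw [if_neg hj, add_zero]
          refine tb _ _ _ _ _ _ (by norm_num) hx ?_
          rw [aK3 d ρ _ _ (by ring) (by omega)]
          congr 3; ring)
  have F2 := ser 2 (fun j => -(19 / 20 * (11 / 10) * (KK d ρ (2 * (2 * j + 1) + 3)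
        * (fc β (2 * j) * (starRingEnd ℂ) (fc P (2 * j + 3)) * z).im)))
      (fun j => aK d ρ (2 * j + 1) (2 * j + 1 + 3)) (fun j => wt θ (2 * j + 1) (2 * j + 1 + 3)) B V
      0 sB sV (fun j => aK_nn _ _ _ _) (fun j => aK_le _ _ _ _)
      (fun j => wt_b θ hθ _ _) (fun j => by
        have hx : |(fc β (2 * j) * (starRingEnd ℂ) (fc P (2 * j + 3)) * z).im| ≤ B j * V (j + 2) := by
          have := im2 (fc β (2 * j)) (fc P (2 * j + 3)) z hz
          rw [hVx (j + 2) (2 * j + 3) (by ring), hBx j _ rfl]; exact this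
        rw [ite_self, add_zero, abs_neg]
        refine tb _ _ _ _ _ _ (by norm_num) hx ?_
        rw [aK3 d ρ _ _ (by ring) (by omega)]
        congr 3; ring)
  have F3 := ser (-4) (fun j => -(19 / 20 * (1 / 10) * (KK d ρ (2 * (2 * j + 1) - 9)
        * ((starRingEnd ℂ) (fc β (2 * j)) * fc P (2 * j - 9) * z ^ 3).im)))
      (fun j => aK d ρ (2 * j + 1) (2 * j + 1 - 9)) (fun j => wt θ (2 * j + 1) (2 * j + 1 - 9)) B V
      0 sB sV (fun j => aK_nn _ _ _ _) (fun j => aK_le _ _ _ _)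
      (fun j => wt_b θ hθ _ _) (fun j => by
        have hx : |((starRingEnd ℂ) (fc β (2 * j)) * fc P (2 * j - 9) * z ^ 3).im|
            ≤ B j * V (j + -4) := by
          have := im1 (fc β (2 * j)) (fc P (2 * j - 9)) (z ^ 3) hz3
          rw [hVx (j + -4) (2 * j - 9) (by ring), hBx j _ rfl]; exact this
        rw [ite_self, add_zero, abs_neg]
        refine tb _ _ _ _ _ _ (by norm_num) hx ?_
        rw [aK9 d ρ _ _ (by ring)]
        congr 3; ring)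
  have F4 := ser 5 (fun j => 19 / 20 * (1 / 10) * (KK d ρ (2 * (2 * j + 1) + 9)
        * (fc β (2 * j) * (starRingEnd ℂ) (fc P (2 * j + 9)) * z ^ 3).im))
      (fun j => aK d ρ (2 * j + 1) (2 * j + 1 + 9)) (fun j => wt θ (2 * j + 1) (2 * j + 1 + 9)) B V
      0 sB sV (fun j => aK_nn _ _ _ _) (fun j => aK_le _ _ _ _)
      (fun j => wt_b θ hθ _ _) (fun j => by
        have hx : |(fc β (2 * j) * (starRingEnd ℂ) (fc P (2 * j + 9)) * z ^ 3).im|
            ≤ B j * V (j + 5) := by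
          have := im2 (fc β (2 * j)) (fc P (2 * j + 9)) (z ^ 3) hz3
          rw [hVx (j + 5) (2 * j + 9) (by ring), hBx j _ rfl]; exact this
        rw [ite_self, add_zero]
        refine tb _ _ _ _ _ _ (by norm_num) hx ?_
        rw [aK9 d ρ _ _ (by ring)]
        congr 3; ring)
  obtain ⟨f1, g1, k1⟩ := F1
  obtain ⟨f2, g2, k2⟩ := F2
  obtain ⟨f3, g3, k3⟩ := F3
  obtain ⟨f4, g4, k4⟩ := F4
  -- sum of the `b` parts
  have sb : Summable fun j => bC θ d ρ (2 * j + 1) * B j ^ 2 := by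
    refine (((f3.add f1).add f2).add f4).congr (fun j => ?_)
    unfold bC; ring
  have tb' : (∑' j, bC θ d ρ (2 * j + 1) * B j ^ 2)
      = (∑' j, wt θ (2 * j + 1) (2 * j + 1 - 9) * aK d ρ (2 * j + 1) (2 * j + 1 - 9) * B j ^ 2)
      + (∑' j, wt θ (2 * j + 1) (2 * j + 1 - 3) * aK d ρ (2 * j + 1) (2 * j + 1 - 3) * B j ^ 2)
      + (∑' j, wt θ (2 * j + 1) (2 * j + 1 + 3) * aK d ρ (2 * j + 1) (2 * j + 1 + 3) * B j ^ 2)
      + (∑' j, wt θ (2 * j + 1) (2 * j + 1 + 9) * aK d ρ (2 * j + 1) (2 * j + 1 + 9) * B j ^ 2) := by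
    rw [← f3.tsum_add f1, ← (f3.add f1).tsum_add f2, ← ((f3.add f1).add f2).tsum_add f4]
    refine tsum_congr (fun j => ?_)
    unfold bC; ring
  have sv : Summable fun i => vC θ d ρ (2 * i) * V i ^ 2 := by
    refine (((g4.add g2).add g1).add g3).congr (fun i => ?_)
    unfold vC
    have e1 : 2 * (i - 5) + 1 = 2 * i - 9 := by ring
    have e2 : 2 * (i - 2) + 1 = 2 * i - 3 := by ring
    have e3 : 2 * (i - -1) + 1 = 2 * i + 3 := by ring
    have e4 : 2 * (i - -4) + 1 = 2 * i + 9 := by ring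
    have e5 : 2 * i - 9 + 9 = 2 * i := by ring
    have e6 : 2 * i - 3 + 3 = 2 * i := by ring
    have e7 : 2 * i + 3 - 3 = 2 * i := by ring
    have e8 : 2 * i + 9 - 9 = 2 * i := by ring
    rw [e1, e2, e3, e4, e5, e6, e7, e8]; ring
  have tv' : (∑' i, vC θ d ρ (2 * i) * V i ^ 2)
      = (∑' i, aK d ρ (2 * (i - 5) + 1) (2 * (i - 5) + 1 + 9)
          / (4 * wt θ (2 * (i - 5) + 1) (2 * (i - 5) + 1 + 9)) * V i ^ 2)
      + (∑' i, aK d ρ (2 * (i - 2) + 1) (2 * (i - 2) + 1 + 3)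
          / (4 * wt θ (2 * (i - 2) + 1) (2 * (i - 2) + 1 + 3)) * V i ^ 2)
      + (∑' i, aK d ρ (2 * (i - -1) + 1) (2 * (i - -1) + 1 - 3)
          / (4 * wt θ (2 * (i - -1) + 1) (2 * (i - -1) + 1 - 3)) * V i ^ 2)
      + (∑' i, aK d ρ (2 * (i - -4) + 1) (2 * (i - -4) + 1 - 9)
          / (4 * wt θ (2 * (i - -4) + 1) (2 * (i - -4) + 1 - 9)) * V i ^ 2) := by
    rw [← g4.tsum_add g2, ← (g4.add g2).tsum_add g1, ← ((g4.add g2).add g1).tsum_add g3]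
    refine tsum_congr (fun i => ?_)
    unfold vC
    have e1 : 2 * (i - 5) + 1 = 2 * i - 9 := by ring
    have e2 : 2 * (i - 2) + 1 = 2 * i - 3 := by ring
    have e3 : 2 * (i - -1) + 1 = 2 * i + 3 := by ring
    have e4 : 2 * (i - -4) + 1 = 2 * i + 9 := by ring
    have e5 : 2 * i - 9 + 9 = 2 * i := by ring
    have e6 : 2 * i - 3 + 3 = 2 * i := by ring
    have e7 : 2 * i + 3 - 3 = 2 * i := by ring
    have e8 : 2 * i + 9 - 9 = 2 * i := by ring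
    rw [e1, e2, e3, e4, e5, e6, e7, e8]; ring
  obtain ⟨sb1, sb2⟩ := splitB _ sb
  obtain ⟨sv1, sv2⟩ := splitV _ sv
  have cB : ∀ k : ℕ, bC θ d ρ (2 * ((k : ℤ) + 1) + 1) * B ((k : ℤ) + 1) ^ 2
      + bC θ d ρ (2 * (-((k : ℤ) + 1)) + 1) * B (-((k : ℤ) + 1)) ^ 2
      = bC θ d ρ (2 * k + 3) * ‖uu β k‖ ^ 2 + bC θ d ρ (-(2 * k + 1)) * ‖ww β k‖ ^ 2 := fun k => by
    rw [hBu, hBw]
    have e1 : 2 * ((k : ℤ) + 1) + 1 = 2 * k + 3 := by ring
    have e2 : 2 * (-((k : ℤ) + 1)) + 1 = -(2 * k + 1) := by ring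
    rw [e1, e2]
  have cV : ∀ k : ℕ, vC θ d ρ (2 * ((k : ℤ) + 1)) * V ((k : ℤ) + 1) ^ 2
      + vC θ d ρ (2 * (-(k : ℤ))) * V (-(k : ℤ)) ^ 2
      = vC θ d ρ (2 * k + 2) * ‖cp P k‖ ^ 2 + vC θ d ρ (-(2 * k)) * ‖cm P k‖ ^ 2 := fun k => by
    rw [hVp, hVm]
    have e1 : 2 * ((k : ℤ) + 1) = 2 * k + 2 := by ring
    have e2 : 2 * (-(k : ℤ)) = -(2 * k) := by ring
    rw [e1, e2]
  refine ⟨z, a, hz, ha, hca, sb1.congr cB, sv1.congr cV, ?_⟩
  rw [tsum_congr cB] at sb2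
  rw [tsum_congr cV] at sv2
  have hbc0 : bC θ d ρ (2 * 0 + 1) * B 0 ^ 2 = bC θ d ρ 1 * ‖fc β 0‖ ^ 2 := by rw [hB0]; norm_num
  rw [hbc0] at sb2
  rw [tsum_mul_left] at k1 k4
  rw [tsum_neg, tsum_mul_left] at k2 k3
  rw [TW3, TW9, hcz, hpz]
  have hl8 : -(l8 d ρ * ‖cm P 4‖) ≤ -(19 / 20 * (1 / 10) * (Real.cos (8 * Real.pi / 3 + 7 * d)
      * (4 / 7 * Real.sin (7 * ρ / 2)) * (cm P 4 * z ^ 3).im)) := by
    have h1 : |(cm P 4 * z ^ 3).im| ≤ ‖cm P 4‖ := by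
      refine (Complex.abs_im_le_norm _).trans ?_
      rw [norm_mul, hz3, mul_one]
    have h2 := tb (19 / 20 * (1 / 10)) (Real.cos (8 * Real.pi / 3 + 7 * d)
      * (4 / 7 * Real.sin (7 * ρ / 2))) (cm P 4 * z ^ 3).im 1 ‖cm P 4‖ (l8 d ρ) (by norm_num)
      (by rw [one_mul]; exact h1) (by unfold l8; rfl)
    rw [one_mul] at h2
    linarith [(abs_le.mp h2).2]
  have hl10 : -(l10 d ρ * ‖cp P 4‖) ≤ 19 / 20 * (1 / 10) * (Real.cos (10 * Real.pi / 3 + 11 * d)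
      * (4 / 11 * Real.sin (11 * ρ / 2)) * ((starRingEnd ℂ) (cp P 4) * z ^ 3).im) := by
    have h1 : |((starRingEnd ℂ) (cp P 4) * z ^ 3).im| ≤ ‖cp P 4‖ := by
      refine (Complex.abs_im_le_norm _).trans ?_
      rw [norm_mul, hz3, mul_one, RCLike.norm_conj]
    have h2 := tb (19 / 20 * (1 / 10)) (Real.cos (10 * Real.pi / 3 + 11 * d)
      * (4 / 11 * Real.sin (11 * ρ / 2))) ((starRingEnd ℂ) (cp P 4) * z ^ 3).im 1 ‖cp P 4‖
      (l10 d ρ) (by norm_num) (by rw [one_mul]; exact h1) (by unfold l10; rfl)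
    rw [one_mul] at h2
    linarith [(abs_le.mp h2).1]
  unfold AA BB
  linarith

end Pool.Agent.Helper32.RC
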